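import Pool.Agent.X169.HS.New

/-! Actions in charts. -/

set_option autoImplicit false

open Set Filter Topology Metric Function MeasureTheory

noncomputable section

namespace Pool.Agent.X169.HS

theorem NA.mono {n : ℕ} {f : E n → E n} {z z' : E n} {a a' : ℝ} (h : NA f z a)
    (h1 : ‖z' - z‖ + a' ≤ a) : NA f z' a' := by
  intro p v hp hv
  refine h p v ?_ (by have := norm_nonneg (z' - z); linarith)
  have e : p - z = (p - z') + (z' - z) := by abel
  rw [e]
  refine (norm_add_le _ _).trans ?_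
  linarith

variable {n : ℕ} {X : Type} [TopologicalSpace X]

/-- the action in a chart -/
def act (φ : OpenPartialHomeomorph X (E n)) {H : Type} [SMul H X] (h : H) (y : E n) : E n :=
  φ (h • φ.symm y)

theorem chart_act (φ : OpenPartialHomeomorph X (E n)) {H : Type} [Group H] [TopologicalSpace H]
    [CompactSpace H] [MulAction H X] [ContinuousSMul H X] (x0 : X) (hx0 : x0 ∈ φ.source)
    (hH : ∀ h : H, h • x0 ∈ φ.source) :
    ∃ A : ℝ, 0 < A ∧ closedBall (φ x0) A ⊆ φ.target ∧
      (∀ y ∈ closedBall (φ x0) A, ∀ h : H, h • φ.symm y ∈ φ.source) ∧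
      ContinuousOn (fun q : H × E n => act φ q.1 q.2) (univ ×ˢ closedBall (φ x0) A) := by
  have hz : φ x0 ∈ φ.target := φ.map_source hx0
  have e1 : ∀ᶠ y in 𝓝 (φ x0), y ∈ φ.target := φ.open_target.mem_nhds hz
  have e2 : ∀ᶠ y in 𝓝 (φ x0), ∀ h ∈ (univ : Set H), h • φ.symm y ∈ φ.source := by
    apply isCompact_univ.eventually_forall_of_forall_eventually
    intro h _
    have c1 : ContinuousAt (fun q : E n × H => φ.symm q.1) (φ x0, h) :=
      ContinuousAt.comp (f := Prod.fst) (x := (φ x0, h)) (φ.continuousAt_symm hz) continuousAt_fst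
    have c2 : ContinuousAt (fun q : E n × H => q.2 • φ.symm q.1) (φ x0, h) :=
      continuousAt_snd.smul c1
    refine c2.eventually_mem ?_
    simp only
    rw [φ.left_inv hx0]
    exact φ.open_source.mem_nhds (hH h)
  obtain ⟨A, hA, hAh⟩ := Metric.nhds_basis_closedBall.eventually_iff.1 (e1.and e2)
  refine ⟨A, hA, fun y hy => (hAh hy).1, fun y hy h => (hAh hy).2 h (mem_univ _), ?_⟩
  have c1 : ContinuousOn (fun q : H × E n => φ.symm q.2) (univ ×ˢ closedBall (φ x0) A) :=
    φ.continuousOn_symm.comp continuousOn_snd fun q hq => (hAh hq.2).1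
  have c2 : ContinuousOn (fun q : H × E n => q.1 • φ.symm q.2) (univ ×ˢ closedBall (φ x0) A) :=
    continuousOn_fst.smul c1
  exact φ.continuousOn.comp c2 fun q hq => (hAh hq.2).2 _ (mem_univ _)

theorem act_one (φ : OpenPartialHomeomorph X (E n)) {H : Type} [Group H] [MulAction H X]
    {y : E n} (hy : y ∈ φ.target) : act φ (1 : H) y = y := by
  rw [act, one_smul, φ.right_inv hy]

theorem act_mul (φ : OpenPartialHomeomorph X (E n)) {H : Type} [Group H] [MulAction H X]
    (h k : H) {y : E n} (hy : k • φ.symm y ∈ φ.source) : act φ (h * k) y = act φ h (act φ k y) := by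
  rw [act, act, act, φ.left_inv hy, mul_smul]

/-- the condition on one element -/
def Good (φ : OpenPartialHomeomorph X (E n)) (x0 : X) {H : Type} [SMul H X] (h : H) : Prop :=
  ∃ ρ : ℝ, 0 < ρ ∧ NA (act φ h) (φ x0) ρ

/-- the local theorem for profinite groups, by Baire's theorem -/
theorem abs_triv {H0 : Type} [Group H0] [TopologicalSpace H0]
    [IsTopologicalGroup H0] [CompactSpace H0] [T2Space H0] [TotallyDisconnectedSpace H0]
    (T : H0 → E n → E n) (z : E n) (A : ℝ) (hA : 0 < A)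
    (hAc : ContinuousOn (fun q : H0 × E n => T q.1 q.2) (univ ×ˢ closedBall z A))
    (hone : ∀ x ∈ closedBall z A, T 1 x = x)
    (hmul : ∀ h k, ∀ x ∈ closedBall z A, T (h * k) x = T h (T k x))
    (hTinj : ∀ h : H0, InjOn (T h) (closedBall z A))
    (hgood : ∀ h, ∃ σ : ℝ, 0 < σ ∧ NA (T h) z σ) :
    ∃ K : Subgroup H0, IsOpen (K : Set H0) ∧ ∃ a : ℝ, 0 < a ∧ ∀ k ∈ K, ∀ p : E n,
      ‖p - z‖ ≤ a → T k p = p := by
  have hmemA : ∀ p : E n, ‖p - z‖ ≤ A → p ∈ closedBall z A := fun p hp => by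
    rwa [mem_closedBall, dist_eq_norm]
  have hcont : ∀ p : E n, ‖p - z‖ ≤ A → Continuous fun h : H0 => T h p := by
    intro p hp
    have e1 : ContinuousOn (fun h : H0 => ((h, p) : H0 × E n)) univ := by fun_prop
    have e2 : ContinuousOn (fun h : H0 => T h p) univ :=
      hAc.comp e1 fun h _ => ⟨mem_univ _, hmemA p hp⟩
    exact continuousOn_univ.1 e2
  -- Baire's theorem
  obtain ⟨ρ, hρ0, hρA, hρ1⟩ : ∃ ρ : ℕ → ℝ, (∀ m, 0 < ρ m) ∧ (∀ m, ρ m ≤ A / 6) ∧
      ∀ m, ρ m ≤ 1 / ((m : ℝ) + 1) :=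
    ⟨fun m => min (A / 6) (1 / ((m : ℝ) + 1)), fun m => by positivity,
      fun m => min_le_left _ _, fun m => min_le_right _ _⟩
  have hclosed : ∀ m, IsClosed {h : H0 | NA (T h) z (ρ m)} := by
    intro m
    have e1 : {h : H0 | NA (T h) z (ρ m)} = ⋂ (p : E n) (v : E n) (_ : ‖p - z‖ ≤ ρ m)
        (_ : ‖v‖ ≤ ρ m), {h : H0 | ‖T h (p + v) + T h (p - v) - (2 : ℝ) • T h p‖ ≤
          1 / 200 * ‖T h (p + v) - T h p‖} := by
      ext h
      simp only [mem_iInter]
      rfl
    rw [e1]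
    refine isClosed_iInter fun p => isClosed_iInter fun v => isClosed_iInter fun hp =>
      isClosed_iInter fun hv => ?_
    have hA6 := hρA m
    have b1 : ‖p + v - z‖ ≤ A := by
      have e : p + v - z = (p - z) + v := by abel
      rw [e]
      refine (norm_add_le _ _).trans ?_
      linarith
    have b2 : ‖p - v - z‖ ≤ A := by
      have e : p - v - z = (p - z) - v := by abel
      rw [e]
      refine (norm_sub_le _ _).trans ?_
      linarith
    have b3 : ‖p - z‖ ≤ A := by linarith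
    have c1 := hcont _ b1
    have c2 := hcont _ b2
    have c3 := hcont _ b3
    have d1 : Continuous fun h : H0 => ‖T h (p + v) + T h (p - v) - (2 : ℝ) • T h p‖ := by
      have d2 : Continuous fun h : H0 => (2 : ℝ) • T h p := c3.const_smul (2 : ℝ)
      exact ((c1.add c2).sub d2).norm
    have d3 : Continuous fun h : H0 => 1 / 200 * ‖T h (p + v) - T h p‖ :=
      continuous_const.mul (c1.sub c3).norm
    exact isClosed_le d1 d3
  have hcov : ⋃ m, {h : H0 | NA (T h) z (ρ m)} = univ := by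
    rw [eq_univ_iff_forall]
    intro h
    obtain ⟨σ, hσ, hσN⟩ := hgood h
    obtain ⟨m, hm⟩ := exists_nat_one_div_lt hσ
    refine mem_iUnion.2 ⟨m, ?_⟩
    refine NA.mono (z := z) (a := σ) hσN ?_
    rw [sub_self, norm_zero, zero_add]
    exact (hρ1 m).trans hm.le
  have hne : Nonempty H0 := ⟨1⟩
  obtain ⟨m, h₀, hh₀⟩ := nonempty_interior_of_iUnion_of_closed hclosed hcov
  obtain ⟨a, ha, ha3⟩ : ∃ a : ℝ, 0 < a ∧ 3 * a = ρ m := ⟨ρ m / 3, by
    have := hρ0 m
    positivity, by ring⟩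
  have ha6 : 6 * a ≤ A := by
    have := hρA m
    linarith
  have hsub6 : closedBall z (6 * a) ⊆ closedBall z A := closedBall_subset_closedBall ha6
  have hTc : ∀ h : H0, ContinuousOn (T h) (closedBall z A) := by
    intro h
    have e1 : ContinuousOn (fun y : E n => ((h, y) : H0 × E n)) (closedBall z A) := by fun_prop
    exact hAc.comp e1 fun y hy => ⟨mem_univ _, hy⟩
  have hb2 : ∀ p w : E n, ‖p - z‖ ≤ 2 * a → ‖w‖ ≤ a / 28 → ‖p + w - z‖ ≤ A := by
    intro p w hp hw
    have e : p + w - z = (p - z) + w := by abel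
    rw [e]
    refine (norm_add_le _ _).trans ?_
    linarith
  obtain ⟨c, hc0, hc⟩ : ∃ c : ℝ, 0 < c ∧ ∀ p w : E n, ‖p - z‖ ≤ 2 * a → a / 56 ≤ ‖w‖ →
      ‖w‖ ≤ a / 28 → c ≤ ‖T h₀ (p + w) - T h₀ p‖ := by
    have hcomp : IsCompact (closedBall z (2 * a) ×ˢ
        (closedBall (0 : E n) (a / 28) ∩ {w | a / 56 ≤ ‖w‖})) :=
      (isCompact_closedBall _ _).prod ((isCompact_closedBall _ _).inter_right
        (isClosed_le continuous_const continuous_norm))
    obtain ⟨c, hc0, hc1⟩ := hcomp.exists_forall_le'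
      (f := fun q : E n × E n => ‖T h₀ (q.1 + q.2) - T h₀ q.1‖) (by
        have e1 : ContinuousOn (fun q : E n × E n => T h₀ (q.1 + q.2))
            (closedBall z (2 * a) ×ˢ (closedBall (0 : E n) (a / 28) ∩ {w | a / 56 ≤ ‖w‖})) := by
          refine (hTc h₀).comp (by fun_prop) ?_
          rintro ⟨p, w⟩ ⟨hp, hw, -⟩
          rw [mem_closedBall, dist_eq_norm] at hp
          rw [mem_closedBall_zero_iff] at hw
          exact hmemA _ (hb2 p w hp hw)
        have e2 : ContinuousOn (fun q : E n × E n => T h₀ q.1)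
            (closedBall z (2 * a) ×ˢ (closedBall (0 : E n) (a / 28) ∩ {w | a / 56 ≤ ‖w‖})) := by
          refine (hTc h₀).comp (by fun_prop) ?_
          rintro ⟨p, w⟩ ⟨hp, -⟩
          exact closedBall_subset_closedBall (by linarith) hp
        exact (e1.sub e2).norm) (a := 0) (by
        rintro ⟨p, w⟩ ⟨hp, hw, hw'⟩
        rw [mem_closedBall, dist_eq_norm] at hp
        rw [mem_closedBall_zero_iff] at hw
        rw [norm_pos_iff, sub_ne_zero]
        intro hcon
        have e3 := hTinj h₀ (hmemA _ (hb2 p w hp hw)) (hmemA p (by linarith)) hcon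
        have e4 : w = 0 := by simpa using e3
        have hw'' : a / 56 ≤ ‖w‖ := hw'
        rw [e4, norm_zero] at hw''
        linarith)
    refine ⟨c, hc0, fun p w hp hw hw' => hc1 (p, w) ⟨?_, ?_, hw⟩⟩
    · rwa [mem_closedBall, dist_eq_norm]
    · rwa [mem_closedBall_zero_iff]
  -- a small subgroup
  have hcA : ∀ (h : H0) (p : E n), ‖p - z‖ ≤ 2 * a →
      ContinuousAt (fun q : H0 × E n => T q.1 q.2) (h, p) := by
    intro h p hp
    refine hAc.continuousAt ?_
    refine prod_mem_nhds univ_mem ?_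
    refine mem_of_superset (ball_mem_nhds p (show 0 < a by exact ha)) ?_
    intro y hy
    rw [mem_ball, dist_eq_norm] at hy
    apply hmemA
    have e : y - z = (y - p) + (p - z) := by abel
    rw [e]
    refine (norm_add_le _ _).trans ?_
    linarith
  have hsmall : ∀ᶠ k : H0 in 𝓝 1, ∀ p ∈ closedBall z (2 * a), ‖T k p - p‖ ≤ a / 28 ∧
      ‖T (h₀ * k) p - T h₀ p‖ ≤ c := by
    apply (isCompact_closedBall z (2 * a)).eventually_forall_of_forall_eventually
    intro p hp
    have hp' : ‖p - z‖ ≤ 2 * a := by rwa [mem_closedBall, dist_eq_norm] at hp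
    have hpt : T 1 p = p := hone p (hmemA p (by linarith))
    have d1 : Tendsto (fun q : H0 × E n => ‖T q.1 q.2 - q.2‖) (𝓝 (1, p)) (𝓝 ‖T 1 p - p‖) :=
      ((hcA 1 p hp').tendsto.sub (continuous_snd.tendsto (1, p))).norm
    have d2 : Tendsto (fun q : H0 × E n => T (h₀ * q.1) q.2) (𝓝 (1, p)) (𝓝 (T h₀ p)) := by
      have e1 : Tendsto (fun q : H0 × E n => (h₀ * q.1, q.2)) (𝓝 (1, p)) (𝓝 (h₀, p)) := by
        have : Continuous (fun q : H0 × E n => (h₀ * q.1, q.2)) := by fun_prop
        have h := this.tendsto (1, p)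
        simpa using h
      exact (hcA h₀ p hp').tendsto.comp e1
    have d3 : Tendsto (fun q : H0 × E n => T h₀ q.2) (𝓝 (1, p)) (𝓝 (T h₀ p)) := by
      have e1 : Tendsto (fun q : H0 × E n => (h₀, q.2)) (𝓝 ((1 : H0), p)) (𝓝 (h₀, p)) := by
        have : Continuous (fun q : H0 × E n => (h₀, q.2)) := by fun_prop
        exact this.tendsto (1, p)
      exact (hcA h₀ p hp').tendsto.comp e1
    have d4 : Tendsto (fun q : H0 × E n => ‖T (h₀ * q.1) q.2 - T h₀ q.2‖) (𝓝 (1, p))
        (𝓝 ‖T h₀ p - T h₀ p‖) := (d2.sub d3).norm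
    rw [hpt, sub_self, norm_zero] at d1
    rw [sub_self, norm_zero] at d4
    filter_upwards [d1.eventually (gt_mem_nhds (show (0 : ℝ) < a / 28 by positivity)),
      d4.eventually (gt_mem_nhds hc0)] with q hq1 hq2
    exact ⟨hq1.le, hq2.le⟩
  have hint : ∀ᶠ k : H0 in 𝓝 1, h₀ * k ∈ interior {h : H0 | NA (T h) z (ρ m)} := by
    have e1 : Tendsto (fun k : H0 => h₀ * k) (𝓝 1) (𝓝 h₀) := by
      have : Continuous (fun k : H0 => h₀ * k) := by fun_prop
      have h := this.tendsto 1
      simpa using h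
    exact e1.eventually (isOpen_interior.mem_nhds hh₀)
  obtain ⟨O, hO1, hOo, h1O⟩ := eventually_nhds_iff.1 (hsmall.and hint)
  obtain ⟨N, hN⟩ := ProfiniteGrp.exist_openNormalSubgroup_sub_open_nhds_of_one hOo h1O
  have hNc : IsCompact (N.toSubgroup : Set H0) :=
    (Subgroup.isClosed_of_isOpen N.toSubgroup N.isOpen').isCompact
  refine ⟨N.toSubgroup, N.isOpen', a, ha, ?_⟩
  exact loc T z a ha (hAc.mono (prod_mono le_rfl hsub6))
    (fun x hx => hone x (hsub6 hx))
    (fun h k x hx _ => hmul h k x (hsub6 hx)) N.toSubgroup hNc h₀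
    (fun k hk => by
      rw [ha3]
      exact interior_subset (hO1 k (hN hk)).2) c hc0 hc
    (fun k hk p hp => (hO1 k (hN hk)).1 p (by rwa [mem_closedBall, dist_eq_norm]))

/-- Near every regular point an open subgroup acts trivially. -/
theorem locTriv (φ : OpenPartialHomeomorph X (E n)) {H : Type} [Group H] [TopologicalSpace H]
    [IsTopologicalGroup H] [CompactSpace H] [T2Space H] [TotallyDisconnectedSpace H]
    [MulAction H X] [ContinuousSMul H X] (x0 : X) (hx0 : x0 ∈ φ.source)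
    (hgood : ∀ h : H, h • x0 ∈ φ.source → Good φ x0 h) :
    ∃ K : Subgroup H, IsOpen (K : Set H) ∧ ∀ᶠ x in 𝓝 x0, ∀ k ∈ K, k • x = x := by
  -- an open subgroup which maps the point into the chart
  obtain ⟨H0, hH0o, hH0s⟩ : ∃ H0 : Subgroup H, IsOpen (H0 : Set H) ∧
      ∀ h ∈ H0, h • x0 ∈ φ.source := by
    have hc : Continuous fun h : H => h • x0 := by fun_prop
    obtain ⟨N, hN⟩ := ProfiniteGrp.exist_openNormalSubgroup_sub_open_nhds_of_one
      (φ.open_source.preimage hc) (by
        rw [mem_preimage, one_smul]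
        exact hx0)
    exact ⟨N.toSubgroup, N.isOpen', fun h hh => hN hh⟩
  have hH0c : IsClosed (H0 : Set H) := Subgroup.isClosed_of_isOpen H0 hH0o
  have : CompactSpace H0 := isCompact_iff_compactSpace.1 hH0c.isCompact
  obtain ⟨A, hA, hAt, hAs, hAc⟩ := chart_act φ (H := H0) x0 hx0 fun h => hH0s h h.2
  obtain ⟨K, hKo, a, ha, key⟩ := abs_triv (H0 := H0) (fun h y => act φ h y) (φ x0) A hA hAc
    (fun x hx => act_one φ (hAt hx)) (fun h k x hx => act_mul φ h k (hAs x hx k)) (by
    intro h y hy y' hy' hyy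
    have e1 := φ.injOn (hAs y hy h) (hAs y' hy' h) hyy
    have e2 := smul_left_cancel h e1
    have e3 := congrArg φ e2
    rwa [φ.right_inv (hAt hy), φ.right_inv (hAt hy')] at e3)
    (fun h => hgood (h : H) (hH0s h h.2))
  refine ⟨K.map H0.subtype, ?_, ?_⟩
  · rw [Subgroup.coe_map]
    exact hH0o.isOpenEmbedding_subtypeVal.isOpenMap _ hKo
  · have e1 : ∀ᶠ x in 𝓝 x0, x ∈ φ.source := φ.open_source.mem_nhds hx0
    have e2 : ∀ᶠ x in 𝓝 x0, φ x ∈ closedBall (φ x0) a :=
      (φ.continuousAt hx0).eventually_mem (closedBall_mem_nhds _ ha)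
    have e2' : ∀ᶠ x in 𝓝 x0, φ x ∈ closedBall (φ x0) A :=
      (φ.continuousAt hx0).eventually_mem (closedBall_mem_nhds _ hA)
    filter_upwards [e1, e2, e2'] with x hx hxa hxA
    rintro k ⟨k', hk', rfl⟩
    have e3 := key k' hk' (φ x) (by rwa [mem_closedBall, dist_eq_norm] at hxa)
    have e4 : (k' : H) • x ∈ φ.source := by
      have := hAs (φ x) hxA k'
      rwa [φ.left_inv hx] at this
    have e5 : φ ((k' : H) • x) = φ x := by
      have e6 : φ (k' • φ.symm (φ x)) = φ x := e3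
      rwa [φ.left_inv hx] at e6
    exact φ.injOn e4 hx e5

end Pool.Agent.X169.HS
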