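import Pool.Agent.X169.HS.Act

/-! From the local theorems to groups acting on the whole space. -/

set_option autoImplicit false

open Set Filter Topology Metric Function MeasureTheory

noncomputable section

namespace Pool.Agent.X169.HS

variable {n : ℕ} {X : Type} [TopologicalSpace X]

theorem NA.congr {f g : E n → E n} {z : E n} {a : ℝ} (h : NA f z a)
    (hfg : ∀ x, ‖x - z‖ ≤ 2 * a → g x = f x) : NA g z a := by
  intro p v hp hv
  have ha : 0 ≤ a := (norm_nonneg _).trans hv
  have b1 : ‖p + v - z‖ ≤ 2 * a := by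
    have e : p + v - z = (p - z) + v := by abel
    rw [e]
    refine (norm_add_le _ _).trans ?_
    linarith
  have b2 : ‖p - v - z‖ ≤ 2 * a := by
    have e : p - v - z = (p - z) - v := by abel
    rw [e]
    refine (norm_sub_le _ _).trans ?_
    linarith
  rw [hfg _ b1, hfg _ b2, hfg p (by linarith)]
  exact h p v hp hv

/-- Newman's theorem for this class -/
theorem newman [T2Space X] (φ : OpenPartialHomeomorph X (E n)) {K : Type} [Group K]
    [TopologicalSpace K] [IsTopologicalGroup K] [CompactSpace K]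
    [MulAction K X] [ContinuousSMul K X] (x0 : X) (hx0 : x0 ∈ φ.source)
    (hgood : ∀ k : K, k • x0 ∈ φ.source → Good φ x0 k) (K1 : Subgroup K)
    (hK1 : IsOpen (K1 : Set K)) (hK1t : ∀ᶠ x in 𝓝 x0, ∀ k ∈ K1, k • x = x)
    (hcl : ∀ V ∈ 𝓝 x0, ∃ a ∈ V, ∀ᶠ x in 𝓝 a, ∀ k : K, k • x = x) :
    ∀ᶠ x in 𝓝 x0, ∀ k : K, k • x = x := by
  -- `x0` is fixed
  have hfix0 : ∀ k : K, k • x0 = x0 := by
    have h1 : IsClosed {x : X | ∀ k : K, k • x = x} := by
      have : {x : X | ∀ k : K, k • x = x} = ⋂ k : K, {x | k • x = x} := by ext; simp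
      rw [this]
      exact isClosed_iInter fun k => isClosed_eq (continuous_const_smul k) continuous_id
    have h2 : x0 ∈ closure {x : X | ∀ k : K, k • x = x} := by
      rw [mem_closure_iff_nhds]
      intro V hV
      obtain ⟨a, haV, ha⟩ := hcl V hV
      exact ⟨a, haV, ha.self_of_nhds⟩
    rw [h1.closure_eq] at h2
    exact h2
  have hH : ∀ k : K, k • x0 ∈ φ.source := fun k => by rwa [hfix0 k]
  obtain ⟨A, hA, hAt, hAs, hAc⟩ := chart_act φ (H := K) x0 hx0 hH
  have hz : φ x0 ∈ φ.target := φ.map_source hx0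
  -- the radius on which the subgroup acts trivially
  obtain ⟨A1, hA1, hA1t⟩ : ∃ A1 : ℝ, 0 < A1 ∧ ∀ y ∈ closedBall (φ x0) A1, ∀ k ∈ K1,
      k • φ.symm y = φ.symm y := by
    have h1 : Tendsto φ.symm (𝓝 (φ x0)) (𝓝 x0) := by
      have := φ.continuousAt_symm hz
      rwa [ContinuousAt, φ.left_inv hx0] at this
    exact Metric.nhds_basis_closedBall.eventually_iff.1 (h1.eventually hK1t)
  -- a uniform radius
  have hfin : Finite (K ⧸ K1) := Subgroup.quotient_finite_of_isOpen K1 hK1
  choose σ hσ hσN using fun k : K => hgood k (hH k)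
  obtain ⟨q₀, hq₀⟩ := Finite.exists_min (fun q : K ⧸ K1 => σ (Quotient.out q))
  obtain ⟨s, hs, hs1, hs2, hs3⟩ : ∃ s : ℝ, 0 < s ∧ s ≤ A ∧ 2 * s ≤ A1 ∧
      s ≤ σ (Quotient.out q₀) := by
    refine ⟨min A (min (A1 / 2) (σ (Quotient.out q₀))), ?_, min_le_left _ _, ?_, ?_⟩
    · have := hσ (Quotient.out q₀)
      positivity
    · have : min A (min (A1 / 2) (σ (Quotient.out q₀))) ≤ A1 / 2 :=
        (min_le_right _ _).trans (min_le_left _ _)
      linarith
    · exact (min_le_right _ _).trans (min_le_right _ _)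
  have hNA : ∀ k : K, NA (act φ k) (φ x0) s := by
    intro k
    obtain ⟨h, hh⟩ := QuotientGroup.mk_out_eq_mul K1 k
    have h1 : NA (act φ (Quotient.out (k : K ⧸ K1))) (φ x0) s := by
      refine NA.mono (hσN _) ?_
      rw [sub_self, norm_zero, zero_add]
      exact hs3.trans (hq₀ _)
    refine h1.congr fun y hy => ?_
    rw [hh]
    have hy1 : y ∈ closedBall (φ x0) A1 := by
      rw [mem_closedBall, dist_eq_norm]
      linarith
    rw [act, act, mul_smul, hA1t y hy1 h h.2]
  have hsub : closedBall (φ x0) s ⊆ closedBall (φ x0) A := closedBall_subset_closedBall hs1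
  have key := new_step (act φ) (φ x0) s hs (hAc.mono (prod_mono le_rfl hsub))
    (fun x hx => act_one φ (hAt (hsub hx)))
    (fun h k x hx _ => act_mul φ h k (hAs x (hsub hx) k)) hNA (by
    intro δ hδ
    have hV : φ.source ∩ φ ⁻¹' ball (φ x0) δ ∈ 𝓝 x0 :=
      inter_mem (φ.open_source.mem_nhds hx0)
        ((φ.continuousAt hx0).preimage_mem_nhds (ball_mem_nhds _ hδ))
    obtain ⟨a, ⟨ha1, ha2⟩, ha3⟩ := hcl _ hV
    refine ⟨φ a, ha2, ?_⟩
    have hat : φ a ∈ φ.target := φ.map_source ha1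
    have h1 : Tendsto φ.symm (𝓝 (φ a)) (𝓝 a) := by
      have := φ.continuousAt_symm hat
      rwa [ContinuousAt, φ.left_inv ha1] at this
    filter_upwards [h1.eventually ha3, φ.open_target.mem_nhds hat] with y hy hyt k
    rw [act, hy k, φ.right_inv hyt])
  have hAx : ∀ᶠ x in 𝓝 x0, φ x ∈ closedBall (φ x0) A :=
    (φ.continuousAt hx0).eventually_mem (closedBall_mem_nhds _ hA)
  filter_upwards [(φ.continuousAt hx0).eventually key, φ.open_source.mem_nhds hx0, hAx] with
    x h1 h2 h3 k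
  have h4 := h1 k
  have h5 := hAs _ h3 k
  rw [act, φ.left_inv h2] at h4
  rw [φ.left_inv h2] at h5
  exact φ.injOn h5 h2 h4

/-- A profinite group acting by maps of the class has an open subgroup which acts trivially. -/
theorem profinite [T2Space X] {H : Type} [Group H] [TopologicalSpace H] [IsTopologicalGroup H]
    [CompactSpace H] [T2Space H] [TotallyDisconnectedSpace H] [MulAction H X] [ContinuousSMul H X]
    (R : Set X) (hdense : Dense R) (hconn : IsPreconnected R)
    (hR : ∀ x ∈ R, ∃ φ : OpenPartialHomeomorph X (E n), x ∈ φ.source ∧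
      ∀ h : H, h • x ∈ φ.source → Good φ x h) :
    ∃ K : Subgroup H, IsOpen (K : Set H) ∧ ∀ k ∈ K, ∀ x : X, k • x = x := by
  rcases isEmpty_or_nonempty X with hX | hX
  · exact ⟨⊤, isOpen_univ, fun k _ x => (hX.false x).elim⟩
  obtain ⟨x0, hx0⟩ := hdense.nonempty
  obtain ⟨φ0, hφ0, hg0⟩ := hR x0 hx0
  obtain ⟨K, hKo, hKt⟩ := locTriv φ0 x0 hφ0 hg0
  refine ⟨K, hKo, ?_⟩
  have hKc : IsClosed (K : Set H) := Subgroup.isClosed_of_isOpen K hKo
  have : CompactSpace K := isCompact_iff_compactSpace.1 hKc.isCompact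
  let Z : Set X := {x | ∀ᶠ y in 𝓝 x, ∀ q : K, q • y = y}
  have hZo : IsOpen Z := by
    rw [isOpen_iff_mem_nhds]
    intro x hx
    exact eventually_eventually_nhds.2 hx
  have hZx : x0 ∈ Z := by
    filter_upwards [hKt] with y hy q
    exact hy (q : H) q.2
  have hsub : R ⊆ Z := by
    refine hconn.subset_of_closure_inter_subset hZo ⟨x0, hx0, hZx⟩ ?_
    rintro x ⟨hxZ, hxR⟩
    obtain ⟨φ, hφ, hg⟩ := hR x hxR
    obtain ⟨K', hK'o, hK't⟩ := locTriv φ x hφ hg
    let K'' : Subgroup K := K'.comap K.subtype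
    have hK''o : IsOpen (K'' : Set K) := hK'o.preimage continuous_subtype_val
    refine newman φ (K := K) x hφ (fun k hk => hg (k : H) hk) K'' hK''o ?_ ?_
    · filter_upwards [hK't] with y hy q hq
      exact hy _ hq
    · intro V hV
      obtain ⟨a, haV, haZ⟩ := mem_closure_iff_nhds.1 hxZ V hV
      exact ⟨a, haV, haZ⟩
  intro k hk x
  have hcl : IsClosed {x : X | (k : H) • x = x} :=
    isClosed_eq (continuous_const_smul (k : H)) continuous_id
  have h2 : R ⊆ {x : X | (k : H) • x = x} := by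
    intro y hy
    exact (hsub hy).self_of_nhds ⟨k, hk⟩
  have h3 := hcl.closure_subset_iff.2 h2
  rw [hdense.closure_eq] at h3
  exact h3 (mem_univ x)

end Pool.Agent.X169.HS
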