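import Pool.Agent.X169.HS.Glob
import Pool.Agent.Y485.HS.Lie
import Pool.Agent.Y286.HS.LGB
import Pool.Agent.Y328.HS.Lga

/-! The final theorem. -/

set_option autoImplicit false

open Set Filter Topology Metric Function MeasureTheory

noncomputable section

namespace Pool.Agent.X169.HS

open Pool.Agent.W660.GY (NSS)

/-- No small subgroups. -/
theorem nss_main {n : ℕ} {X : Type} [TopologicalSpace X] [T2Space X]
    {G : Type} [Group G] [TopologicalSpace G] [IsTopologicalGroup G] [LocallyCompactSpace G]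
    [MulAction G X] [ContinuousSMul G X] [FaithfulSMul G X] (V : Set G) (hV : V ∈ 𝓝 (1 : G))
    (R : Set X) (hdense : Dense R) (hconn : IsPreconnected R)
    (hR : ∀ x ∈ R, ∃ φ : OpenPartialHomeomorph X (E n), x ∈ φ.source ∧
      ∀ g ∈ V, g • x ∈ φ.source → Good φ x g) : T2Space G ∧ NSS G := by
  have hT2 : T2Space G := by
    refine ⟨fun g h hgh => ?_⟩
    obtain ⟨x, hx⟩ : ∃ x : X, g • x ≠ h • x := by
      by_contra hall
      push Not at hall
      exact hgh (eq_of_smul_eq_smul hall)
    obtain ⟨u, v, hu, hv, hgu, hhv, huv⟩ := t2_separation hx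
    have hc : Continuous (fun g : G => g • x) := by fun_prop
    exact ⟨_, _, hu.preimage hc, hv.preimage hc, hgu, hhv, huv.preimage _⟩
  refine ⟨hT2, Pool.Agent.Y485.HS.nss_of_Z V hV ?_⟩
  intro S _ _ _ _ _ _ i hi hinj hiV
  let _ : MulAction S X := MulAction.compHom X i
  have _ : ContinuousSMul S X := ⟨by
    have h : Continuous (fun q : S × X => i q.1 • q.2) := by fun_prop
    exact h⟩
  obtain ⟨K, hKo, hKt⟩ := profinite (n := n) (H := S) (X := X) R hdense hconn (by
    intro x hx
    obtain ⟨φ, hφ, hg⟩ := hR x hx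
    exact ⟨φ, hφ, fun h hh => hg (i h) (hiV h) hh⟩)
  have hbot : K = ⊥ := by
    rw [eq_bot_iff]
    intro k hk
    rw [Subgroup.mem_bot]
    apply hinj
    refine eq_of_smul_eq_smul (α := X) fun x => ?_
    rw [map_one, one_smul]
    exact hKt k hk x
  rw [hbot] at hKo
  refine discreteTopology_of_isOpen_singleton_one ?_
  convert hKo using 1
  ext x
  simp

/-- The group is a Lie group. -/
theorem lie_main {n : ℕ} {X : Type} [TopologicalSpace X] [T2Space X]
    {G : Type} [Group G] [TopologicalSpace G] [IsTopologicalGroup G] [LocallyCompactSpace G]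
    [MulAction G X] [ContinuousSMul G X] [FaithfulSMul G X] (V : Set G) (hV : V ∈ 𝓝 (1 : G))
    (R : Set X) (hdense : Dense R) (hconn : IsPreconnected R)
    (hR : ∀ x ∈ R, ∃ φ : OpenPartialHomeomorph X (E n), x ∈ φ.source ∧
      ∀ g ∈ V, g • x ∈ φ.source → Good φ x g) : Pool.Agent.Y485.HS.IsLie G := by
  obtain ⟨hT, hN⟩ := nss_main V hV R hdense hconn hR
  haveI := hT
  obtain ⟨E, i1, i2, i3, ⟨C⟩⟩ := Pool.Agent.Y328.HS.lga G hN
  letI := i1
  letI := i2
  haveI := i3
  exact Pool.Agent.Y286.HS.lgb G E C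

end Pool.Agent.X169.HS
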