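import Pool.Agent.X169.HS.LocM
import Pool.Agent.X169.HS.Main

/-! Groups which do not turn displacement vectors by a right angle: the global theorem. -/

set_option autoImplicit false

open Set Filter Topology Metric Function MeasureTheory
open scoped RealInnerProductSpace

noncomputable section

namespace Pool.Agent.X169.HS

variable {n : ℕ} {X : Type} [TopologicalSpace X]

theorem NT.mono {H : Type} {T : H → E n → E n} {f : E n → E n} {z : E n} {a a' : ℝ}
    (h : NT T f z a) (h1 : a' ≤ a) : NT T f z a' := fun g p hp hg hgp =>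
  h g p (hp.trans h1) (hg.trans h1) hgp

theorem NTw.mono {H : Type} {T : H → E n → E n} {f : E n → E n} {z : E n} {a a' : ℝ}
    (h : NTw T f z a) (h1 : a' ≤ a) : NTw T f z a' := fun g p hp hg =>
  h g p (hp.trans h1) (hg.trans h1)

/-- the local theorem for profinite groups, by Baire's theorem -/
theorem abs_trivM {H0 : Type} [Group H0] [TopologicalSpace H0]
    [IsTopologicalGroup H0] [CompactSpace H0] [T2Space H0] [TotallyDisconnectedSpace H0]
    (T : H0 → E n → E n) (z : E n) (A : ℝ) (hA : 0 < A)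
    (hAc : ContinuousOn (fun q : H0 × E n => T q.1 q.2) (univ ×ˢ closedBall z A))
    (hone : ∀ x ∈ closedBall z A, T 1 x = x)
    (hmul : ∀ h k, ∀ x ∈ closedBall z A, T (h * k) x = T h (T k x))
    (hgood : ∀ h, ∃ σ : ℝ, 0 < σ ∧ NT T (T h) z σ) :
    ∃ K : Subgroup H0, IsOpen (K : Set H0) ∧ ∃ a : ℝ, 0 < a ∧ ∀ k ∈ K, ∀ p : E n,
      ‖p - z‖ ≤ a → T k p = p := by
  have hmemA : ∀ p : E n, ‖p - z‖ ≤ A → p ∈ closedBall z A := fun p hp => by
    rwa [mem_closedBall, dist_eq_norm]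
  have hcont : ∀ p : E n, ‖p - z‖ ≤ A → Continuous fun h : H0 => T h p := by
    intro p hp
    have e1 : ContinuousOn (fun h : H0 => ((h, p) : H0 × E n)) univ := by fun_prop
    have e2 : ContinuousOn (fun h : H0 => T h p) univ :=
      hAc.comp e1 fun h _ => ⟨mem_univ _, hmemA p hp⟩
    exact continuousOn_univ.1 e2
  -- Baire's theorem
  obtain ⟨ρ, hρ0, hρA, hρ1⟩ : ∃ ρ : ℕ → ℝ, (∀ m, 0 < ρ m) ∧ (∀ m, ρ m ≤ A) ∧
      ∀ m, ρ m ≤ 1 / ((m : ℝ) + 1) :=
    ⟨fun m => min A (1 / ((m : ℝ) + 1)), fun m => by positivity,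
      fun m => min_le_left _ _, fun m => min_le_right _ _⟩
  have hclosed : ∀ m, IsClosed {h : H0 | NTw T (T h) z (ρ m)} := by
    intro m
    have e1 : {h : H0 | NTw T (T h) z (ρ m)} = ⋂ (g : H0) (p : E n) (_ : ‖p - z‖ ≤ ρ m)
        (_ : ‖T g p - z‖ ≤ ρ m), {h : H0 | 0 ≤ ⟪T h (T g p) - T h p, T g p - p⟫} := by
      ext h
      simp only [mem_iInter]
      rfl
    rw [e1]
    refine isClosed_iInter fun g => isClosed_iInter fun p => isClosed_iInter fun hp =>
      isClosed_iInter fun hg => ?_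
    have c1 := hcont _ (hg.trans (hρA m))
    have c2 := hcont _ (hp.trans (hρA m))
    have d1 : Continuous fun h : H0 => ⟪T h (T g p) - T h p, T g p - p⟫ :=
      (c1.sub c2).inner continuous_const
    exact isClosed_le continuous_const d1
  have hcov : ⋃ m, {h : H0 | NTw T (T h) z (ρ m)} = univ := by
    rw [eq_univ_iff_forall]
    intro h
    obtain ⟨σ, hσ, hσN⟩ := hgood h
    obtain ⟨m, hm⟩ := exists_nat_one_div_lt hσ
    exact mem_iUnion.2 ⟨m, (hσN.weak).mono ((hρ1 m).trans hm.le)⟩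
  have hne : Nonempty H0 := ⟨1⟩
  obtain ⟨m, h₀, hh₀⟩ := nonempty_interior_of_iUnion_of_closed hclosed hcov
  obtain ⟨σ, hσ, hσN⟩ := hgood h₀
  obtain ⟨a, ha, ha1, ha2⟩ : ∃ a : ℝ, 0 < a ∧ a ≤ ρ m ∧ a ≤ σ := by
    have := hρ0 m
    exact ⟨min (ρ m) σ, by positivity, min_le_left _ _, min_le_right _ _⟩
  have haA : a ≤ A := ha1.trans (hρA m)
  have hsub : closedBall z a ⊆ closedBall z A := closedBall_subset_closedBall haA
  -- a small subgroup
  have hsmall : ∀ᶠ k : H0 in 𝓝 1, ∀ p ∈ closedBall z (a / 2), ‖T k p - z‖ ≤ a := by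
    apply (isCompact_closedBall z (a / 2)).eventually_forall_of_forall_eventually
    intro p hp
    have hp' : ‖p - z‖ ≤ a / 2 := by rwa [mem_closedBall, dist_eq_norm] at hp
    have hpt : T 1 p = p := hone p (hmemA p (by linarith))
    have hcA : ContinuousAt (fun q : H0 × E n => T q.1 q.2) (1, p) := by
      refine hAc.continuousAt ?_
      refine prod_mem_nhds univ_mem ?_
      refine mem_of_superset (ball_mem_nhds p (show 0 < a / 2 by positivity)) ?_
      intro y hy
      rw [mem_ball, dist_eq_norm] at hy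
      apply hmemA
      have e : y - z = (y - p) + (p - z) := by abel
      rw [e]
      refine (norm_add_le _ _).trans ?_
      linarith
    have d1 : Tendsto (fun q : H0 × E n => ‖T q.1 q.2 - z‖) (𝓝 (1, p)) (𝓝 ‖T 1 p - z‖) :=
      (hcA.tendsto.sub tendsto_const_nhds).norm
    rw [hpt] at d1
    exact (d1.eventually (gt_mem_nhds (show ‖p - z‖ < a by linarith))).mono fun q hq => hq.le
  have hint : ∀ᶠ k : H0 in 𝓝 1, h₀ * k ∈ interior {h : H0 | NTw T (T h) z (ρ m)} := by
    have e1 : Tendsto (fun k : H0 => h₀ * k) (𝓝 1) (𝓝 h₀) := by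
      have : Continuous (fun k : H0 => h₀ * k) := by fun_prop
      have h := this.tendsto 1
      simpa using h
    exact e1.eventually (isOpen_interior.mem_nhds hh₀)
  obtain ⟨O, hO1, hOo, h1O⟩ := eventually_nhds_iff.1 (hsmall.and hint)
  obtain ⟨N, hN⟩ := ProfiniteGrp.exist_openNormalSubgroup_sub_open_nhds_of_one hOo h1O
  have hNc : IsCompact (N.toSubgroup : Set H0) :=
    (Subgroup.isClosed_of_isOpen N.toSubgroup N.isOpen').isCompact
  refine ⟨N.toSubgroup, N.isOpen', a / 2, by positivity, ?_⟩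
  exact locM T z a (hAc.mono (prod_mono le_rfl hsub))
    (fun h k x hx => hmul h k x (hsub hx)) N.toSubgroup hNc h₀
    (fun k hk => (interior_subset (hO1 k (hN hk)).2 : NTw T (T (h₀ * k)) z (ρ m)).mono ha1)
    (hσN.mono ha2) (a / 2) (by linarith)
    (fun k hk p hp => (hO1 k (hN hk)).1 p (by rwa [mem_closedBall, dist_eq_norm]))

/-- the condition on one element `g`: near `x`, in the chart `φ`, it does not turn the
displacement vectors of the elements of `V` by a right angle or more -/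
def GoodM (φ : OpenPartialHomeomorph X (E n)) {H : Type} [SMul H X] (V : Set H) (x : X) (g : H) :
    Prop :=
  ∃ O ∈ 𝓝 x, ∀ y ∈ O, ∀ h ∈ V, h • y ∈ O → h • y ≠ y →
    0 < ⟪φ (g • h • y) - φ (g • y), φ (h • y) - φ y⟫

theorem NT_of_GoodM (φ : OpenPartialHomeomorph X (E n)) {H : Type} [Group H] [MulAction H X]
    (x0 : X) (hx0 : x0 ∈ φ.source) (A : ℝ) (hA : 0 < A) (hAt : closedBall (φ x0) A ⊆ φ.target)
    (hAs : ∀ y ∈ closedBall (φ x0) A, ∀ h : H, h • φ.symm y ∈ φ.source) (h : H)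
    (hg : GoodM φ (univ : Set H) x0 h) :
    ∃ σ : ℝ, 0 < σ ∧ NT (fun (h : H) y => act φ h y) (act φ h) (φ x0) σ := by
  obtain ⟨O, hO, hOg⟩ := hg
  have hz : φ x0 ∈ φ.target := φ.map_source hx0
  have h1 : ∀ᶠ p in 𝓝 (φ x0), φ.symm p ∈ O := by
    have h2 : Tendsto φ.symm (𝓝 (φ x0)) (𝓝 x0) := by
      have := φ.continuousAt_symm hz
      rwa [ContinuousAt, φ.left_inv hx0] at this
    exact h2 hO
  obtain ⟨σ, hσ, hσO⟩ := Metric.nhds_basis_closedBall.eventually_iff.1
    (h1.and (closedBall_mem_nhds (φ x0) hA))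
  refine ⟨σ, hσ, ?_⟩
  intro g p hp hgp hne
  have hp' : p ∈ closedBall (φ x0) σ := by rwa [mem_closedBall, dist_eq_norm]
  have hgp' : act φ g p ∈ closedBall (φ x0) σ := by rwa [mem_closedBall, dist_eq_norm]
  have hpA : p ∈ closedBall (φ x0) A := (hσO hp').2
  have hs : g • φ.symm p ∈ φ.source := hAs p hpA g
  have e1 : φ.symm (act φ g p) = g • φ.symm p := by rw [act, φ.left_inv hs]
  have e2 : g • φ.symm p ∈ O := by
    rw [← e1]
    exact (hσO hgp').1
  have e3 : g • φ.symm p ≠ φ.symm p := by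
    intro hcon
    apply hne
    simp only
    rw [act, hcon, φ.right_inv (hAt hpA)]
  have e4 := hOg (φ.symm p) (hσO hp').1 g (mem_univ _) e2 e3
  rw [φ.right_inv (hAt hpA)] at e4
  simp only
  have e5 : act φ h (act φ g p) = φ (h • g • φ.symm p) := by
    rw [act, e1]
  rw [e5]
  exact e4

/-- Near every regular point an open subgroup acts trivially. -/
theorem locTrivM (φ : OpenPartialHomeomorph X (E n)) {H : Type} [Group H] [TopologicalSpace H]
    [IsTopologicalGroup H] [CompactSpace H] [T2Space H] [TotallyDisconnectedSpace H]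
    [MulAction H X] [ContinuousSMul H X] (x0 : X) (hx0 : x0 ∈ φ.source)
    (hgood : ∀ h : H, h • x0 ∈ φ.source → GoodM φ (univ : Set H) x0 h) :
    ∃ K : Subgroup H, IsOpen (K : Set H) ∧ ∀ᶠ x in 𝓝 x0, ∀ k ∈ K, k • x = x := by
  -- an open subgroup which maps the point into the chart
  obtain ⟨H0, hH0o, hH0s⟩ : ∃ H0 : Subgroup H, IsOpen (H0 : Set H) ∧
      ∀ h ∈ H0, h • x0 ∈ φ.source := by
    have hc : Continuous fun h : H => h • x0 := by fun_prop
    obtain ⟨N, hN⟩ := ProfiniteGrp.exist_openNormalSubgroup_sub_open_nhds_of_one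
      (φ.open_source.preimage hc) (by
        rw [mem_preimage, one_smul]
        exact hx0)
    exact ⟨N.toSubgroup, N.isOpen', fun h hh => hN hh⟩
  have hH0c : IsClosed (H0 : Set H) := Subgroup.isClosed_of_isOpen H0 hH0o
  have : CompactSpace H0 := isCompact_iff_compactSpace.1 hH0c.isCompact
  obtain ⟨A, hA, hAt, hAs, hAc⟩ := chart_act φ (H := H0) x0 hx0 fun h => hH0s h h.2
  obtain ⟨K, hKo, a, ha, key⟩ := abs_trivM (H0 := H0) (fun h y => act φ h y) (φ x0) A hA hAc
    (fun x hx => act_one φ (hAt hx)) (fun h k x hx => act_mul φ h k (hAs x hx k))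
    (fun h => NT_of_GoodM φ x0 hx0 A hA hAt hAs h (by
      obtain ⟨O, hO, hOg⟩ := hgood (h : H) (hH0s h h.2)
      exact ⟨O, hO, fun y hy g _ hgy hne => hOg y hy (g : H) (mem_univ _) hgy hne⟩))
  refine ⟨K.map H0.subtype, ?_, ?_⟩
  · rw [Subgroup.coe_map]
    exact hH0o.isOpenEmbedding_subtypeVal.isOpenMap _ hKo
  · have e1 : ∀ᶠ x in 𝓝 x0, x ∈ φ.source := φ.open_source.mem_nhds hx0
    have e2 : ∀ᶠ x in 𝓝 x0, φ x ∈ closedBall (φ x0) a :=
      (φ.continuousAt hx0).eventually_mem (closedBall_mem_nhds _ ha)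
    have e2' : ∀ᶠ x in 𝓝 x0, φ x ∈ closedBall (φ x0) A :=
      (φ.continuousAt hx0).eventually_mem (closedBall_mem_nhds _ hA)
    filter_upwards [e1, e2, e2'] with x hx hxa hxA
    rintro k ⟨k', hk', rfl⟩
    have e3 := key k' hk' (φ x) (by rwa [mem_closedBall, dist_eq_norm] at hxa)
    have e4 : (k' : H) • x ∈ φ.source := by
      have := hAs (φ x) hxA k'
      rwa [φ.left_inv hx] at this
    have e5 : φ ((k' : H) • x) = φ x := by
      have e6 : φ (k' • φ.symm (φ x)) = φ x := e3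
      rwa [φ.left_inv hx] at e6
    exact φ.injOn e4 hx e5

/-- Newman's theorem for this class -/
theorem newmanM [T2Space X] (φ : OpenPartialHomeomorph X (E n)) {K : Type} [Group K]
    [TopologicalSpace K] [IsTopologicalGroup K] [CompactSpace K]
    [MulAction K X] [ContinuousSMul K X] (x0 : X) (hx0 : x0 ∈ φ.source)
    (hgood : ∀ k : K, k • x0 ∈ φ.source → GoodM φ (univ : Set K) x0 k) (K1 : Subgroup K)
    (hK1 : IsOpen (K1 : Set K)) (hK1t : ∀ᶠ x in 𝓝 x0, ∀ k ∈ K1, k • x = x)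
    (hcl : ∀ V ∈ 𝓝 x0, ∃ a ∈ V, ∀ᶠ x in 𝓝 a, ∀ k : K, k • x = x) :
    ∀ᶠ x in 𝓝 x0, ∀ k : K, k • x = x := by
  -- `x0` is fixed
  have hfix0 : ∀ k : K, k • x0 = x0 := by
    have h1 : IsClosed {x : X | ∀ k : K, k • x = x} := by
      have : {x : X | ∀ k : K, k • x = x} = ⋂ k : K, {x | k • x = x} := by ext; simp
      rw [this]
      exact isClosed_iInter fun k => isClosed_eq (continuous_const_smul k) continuous_id
    have h2 : x0 ∈ closure {x : X | ∀ k : K, k • x = x} := by
      rw [mem_closure_iff_nhds]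
      intro V hV
      obtain ⟨a, haV, ha⟩ := hcl V hV
      exact ⟨a, haV, ha.self_of_nhds⟩
    rw [h1.closure_eq] at h2
    exact h2
  have hH : ∀ k : K, k • x0 ∈ φ.source := fun k => by rwa [hfix0 k]
  obtain ⟨A, hA, hAt, hAs, hAc⟩ := chart_act φ (H := K) x0 hx0 hH
  have hz : φ x0 ∈ φ.target := φ.map_source hx0
  -- the radius on which the subgroup acts trivially
  obtain ⟨A1, hA1, hA1t⟩ : ∃ A1 : ℝ, 0 < A1 ∧ ∀ y ∈ closedBall (φ x0) A1, ∀ k ∈ K1,
      k • φ.symm y = φ.symm y := by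
    have h1 : Tendsto φ.symm (𝓝 (φ x0)) (𝓝 x0) := by
      have := φ.continuousAt_symm hz
      rwa [ContinuousAt, φ.left_inv hx0] at this
    exact Metric.nhds_basis_closedBall.eventually_iff.1 (h1.eventually hK1t)
  -- a uniform radius
  have hfin : Finite (K ⧸ K1) := Subgroup.quotient_finite_of_isOpen K1 hK1
  choose σ hσ hσN using fun k : K => NT_of_GoodM φ x0 hx0 A hA hAt hAs k (hgood k (hH k))
  obtain ⟨q₀, hq₀⟩ := Finite.exists_min (fun q : K ⧸ K1 => σ (Quotient.out q))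
  obtain ⟨s, hs, hs1, hs2, hs3⟩ : ∃ s : ℝ, 0 < s ∧ s ≤ A ∧ s ≤ A1 ∧
      s ≤ σ (Quotient.out q₀) := by
    refine ⟨min A (min A1 (σ (Quotient.out q₀))), ?_, min_le_left _ _,
      (min_le_right _ _).trans (min_le_left _ _), (min_le_right _ _).trans (min_le_right _ _)⟩
    have := hσ (Quotient.out q₀)
    positivity
  have hNT : ∀ k : K, NT (fun (h : K) y => act φ h y) (act φ k) (φ x0) s := by
    intro k
    obtain ⟨h, hh⟩ := QuotientGroup.mk_out_eq_mul K1 k
    have h1 := (hσN (Quotient.out (k : K ⧸ K1))).mono (hs3.trans (hq₀ _))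
    have h2 : ∀ y, ‖y - φ x0‖ ≤ s → act φ (Quotient.out (k : K ⧸ K1)) y = act φ k y := by
      intro y hy
      rw [hh]
      have hy1 : y ∈ closedBall (φ x0) A1 := by
        rw [mem_closedBall, dist_eq_norm]
        linarith
      rw [act, act, mul_smul, hA1t y hy1 h h.2]
    intro g p hp hg hgp
    have h3 := h1 g p hp hg hgp
    rwa [h2 _ hg, h2 p hp] at h3
  -- a ball which stays in the ball of radius `s`
  have hzz : ∀ k : K, act φ k (φ x0) = φ x0 := fun k => by rw [act, φ.left_inv hx0, hfix0]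
  have hb : ∀ᶠ p in 𝓝 (φ x0), ∀ k ∈ (univ : Set K), ‖act φ k p - φ x0‖ ≤ s := by
    apply isCompact_univ.eventually_forall_of_forall_eventually
    intro k _
    have hcA : ContinuousAt (fun q : K × E n => act φ q.1 q.2) (k, φ x0) :=
      hAc.continuousAt (prod_mem_nhds univ_mem (closedBall_mem_nhds _ hA))
    have e1 : Tendsto (fun q : E n × K => (q.2, q.1)) (𝓝 (φ x0, k)) (𝓝 (k, φ x0)) := by
      have : Continuous (fun q : E n × K => (q.2, q.1)) := by fun_prop
      exact this.tendsto (φ x0, k)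
    have e2 : Tendsto (fun q : E n × K => act φ q.2 q.1) (𝓝 (φ x0, k)) (𝓝 (act φ k (φ x0))) :=
      hcA.tendsto.comp e1
    have e3 : Tendsto (fun q : E n × K => ‖act φ q.2 q.1 - φ x0‖) (𝓝 (φ x0, k))
        (𝓝 ‖act φ k (φ x0) - φ x0‖) := (e2.sub tendsto_const_nhds).norm
    rw [hzz k, sub_self, norm_zero] at e3
    exact (e3.eventually (gt_mem_nhds hs)).mono fun q hq => hq.le
  obtain ⟨b, hb0, hbb⟩ := Metric.nhds_basis_closedBall.eventually_iff.1 hb
  have hsub : closedBall (φ x0) s ⊆ closedBall (φ x0) A := closedBall_subset_closedBall hs1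
  have key := locM (fun (h : K) y => act φ h y) (φ x0) s (hAc.mono (prod_mono le_rfl hsub))
    (fun h k x hx => act_mul φ h k (hAs x (hsub hx) k)) ⊤ (by simpa using isCompact_univ) 1
    (fun k _ => by
      rw [one_mul]
      exact (hNT k).weak) (hNT 1) (min b s) (min_le_right _ _)
    (fun k _ p hp => hbb (x := p) (by
      rw [mem_closedBall, dist_eq_norm]
      exact hp.trans (min_le_left _ _)) k (mem_univ _))
  have hAx : ∀ᶠ x in 𝓝 x0, φ x ∈ closedBall (φ x0) A :=
    (φ.continuousAt hx0).eventually_mem (closedBall_mem_nhds _ hA)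
  have hbx : ∀ᶠ x in 𝓝 x0, φ x ∈ closedBall (φ x0) (min b s) :=
    (φ.continuousAt hx0).eventually_mem (closedBall_mem_nhds _ (lt_min hb0 hs))
  filter_upwards [hbx, φ.open_source.mem_nhds hx0, hAx] with x h1 h2 h3 k
  have h4 : act φ k (φ x) = φ x := key k (Subgroup.mem_top _) (φ x) (by
    rwa [mem_closedBall, dist_eq_norm] at h1)
  have h5 := hAs _ h3 k
  rw [act, φ.left_inv h2] at h4
  rw [φ.left_inv h2] at h5
  exact φ.injOn h5 h2 h4

/-- A profinite group acting by maps of the class has an open subgroup which acts trivially. -/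
theorem profiniteM [T2Space X] {H : Type} [Group H] [TopologicalSpace H] [IsTopologicalGroup H]
    [CompactSpace H] [T2Space H] [TotallyDisconnectedSpace H] [MulAction H X] [ContinuousSMul H X]
    (R : Set X) (hdense : Dense R) (hconn : IsPreconnected R)
    (hR : ∀ x ∈ R, ∃ φ : OpenPartialHomeomorph X (E n), x ∈ φ.source ∧
      ∀ h : H, h • x ∈ φ.source → GoodM φ (univ : Set H) x h) :
    ∃ K : Subgroup H, IsOpen (K : Set H) ∧ ∀ k ∈ K, ∀ x : X, k • x = x := by
  rcases isEmpty_or_nonempty X with hX | hX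
  · exact ⟨⊤, isOpen_univ, fun k _ x => (hX.false x).elim⟩
  obtain ⟨x0, hx0⟩ := hdense.nonempty
  obtain ⟨φ0, hφ0, hg0⟩ := hR x0 hx0
  obtain ⟨K, hKo, hKt⟩ := locTrivM φ0 x0 hφ0 hg0
  refine ⟨K, hKo, ?_⟩
  have hKc : IsClosed (K : Set H) := Subgroup.isClosed_of_isOpen K hKo
  have : CompactSpace K := isCompact_iff_compactSpace.1 hKc.isCompact
  let Z : Set X := {x | ∀ᶠ y in 𝓝 x, ∀ q : K, q • y = y}
  have hZo : IsOpen Z := by
    rw [isOpen_iff_mem_nhds]
    intro x hx
    exact eventually_eventually_nhds.2 hx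
  have hZx : x0 ∈ Z := by
    filter_upwards [hKt] with y hy q
    exact hy (q : H) q.2
  have hsub : R ⊆ Z := by
    refine hconn.subset_of_closure_inter_subset hZo ⟨x0, hx0, hZx⟩ ?_
    rintro x ⟨hxZ, hxR⟩
    obtain ⟨φ, hφ, hg⟩ := hR x hxR
    obtain ⟨K', hK'o, hK't⟩ := locTrivM φ x hφ hg
    let K'' : Subgroup K := K'.comap K.subtype
    have hK''o : IsOpen (K'' : Set K) := hK'o.preimage continuous_subtype_val
    refine newmanM φ (K := K) x hφ (fun k hk => ?_) K'' hK''o ?_ ?_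
    · obtain ⟨O, hO, hOg⟩ := hg (k : H) hk
      exact ⟨O, hO, fun y hy g _ hgy hne => hOg y hy (g : H) (mem_univ _) hgy hne⟩
    · filter_upwards [hK't] with y hy q hq
      exact hy _ hq
    · intro V hV
      obtain ⟨a, haV, haZ⟩ := mem_closure_iff_nhds.1 hxZ V hV
      exact ⟨a, haV, haZ⟩
  intro k hk x
  have hcl : IsClosed {x : X | (k : H) • x = x} :=
    isClosed_eq (continuous_const_smul (k : H)) continuous_id
  have h2 : R ⊆ {x : X | (k : H) • x = x} := by
    intro y hy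
    exact (hsub hy).self_of_nhds ⟨k, hk⟩
  have h3 := hcl.closure_subset_iff.2 h2
  rw [hdense.closure_eq] at h3
  exact h3 (mem_univ x)

open Pool.Agent.W660.GY (NSS)

/-- No small subgroups. -/
theorem nss_mainM {n : ℕ} {X : Type} [TopologicalSpace X] [T2Space X]
    {G : Type} [Group G] [TopologicalSpace G] [IsTopologicalGroup G] [LocallyCompactSpace G]
    [MulAction G X] [ContinuousSMul G X] [FaithfulSMul G X] (V : Set G) (hV : V ∈ 𝓝 (1 : G))
    (R : Set X) (hdense : Dense R) (hconn : IsPreconnected R)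
    (hR : ∀ x ∈ R, ∃ φ : OpenPartialHomeomorph X (E n), x ∈ φ.source ∧
      ∀ g ∈ V, g • x ∈ φ.source → GoodM φ V x g) : T2Space G ∧ NSS G := by
  have hT2 : T2Space G := by
    refine ⟨fun g h hgh => ?_⟩
    obtain ⟨x, hx⟩ : ∃ x : X, g • x ≠ h • x := by
      by_contra hall
      push Not at hall
      exact hgh (eq_of_smul_eq_smul hall)
    obtain ⟨u, v, hu, hv, hgu, hhv, huv⟩ := t2_separation hx
    have hc : Continuous (fun g : G => g • x) := by fun_prop
    exact ⟨_, _, hu.preimage hc, hv.preimage hc, hgu, hhv, huv.preimage _⟩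
  refine ⟨hT2, Pool.Agent.Y485.HS.nss_of_Z V hV ?_⟩
  intro S _ _ _ _ _ _ i hi hinj hiV
  let _ : MulAction S X := MulAction.compHom X i
  have _ : ContinuousSMul S X := ⟨by
    have h : Continuous (fun q : S × X => i q.1 • q.2) := by fun_prop
    exact h⟩
  obtain ⟨K, hKo, hKt⟩ := profiniteM (n := n) (H := S) (X := X) R hdense hconn (by
    intro x hx
    obtain ⟨φ, hφ, hg⟩ := hR x hx
    refine ⟨φ, hφ, fun h hh => ?_⟩
    obtain ⟨O, hO, hOg⟩ := hg (i h) (hiV h) hh
    exact ⟨O, hO, fun y hy g _ hgy hne => hOg y hy (i g) (hiV g) hgy hne⟩)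
  have hbot : K = ⊥ := by
    rw [eq_bot_iff]
    intro k hk
    rw [Subgroup.mem_bot]
    apply hinj
    refine eq_of_smul_eq_smul (α := X) fun x => ?_
    rw [map_one, one_smul]
    exact hKt k hk x
  rw [hbot] at hKo
  refine discreteTopology_of_isOpen_singleton_one ?_
  convert hKo using 1
  ext x
  simp

/-- The group is a Lie group. -/
theorem lie_mainM {n : ℕ} {X : Type} [TopologicalSpace X] [T2Space X]
    {G : Type} [Group G] [TopologicalSpace G] [IsTopologicalGroup G] [LocallyCompactSpace G]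
    [MulAction G X] [ContinuousSMul G X] [FaithfulSMul G X] (V : Set G) (hV : V ∈ 𝓝 (1 : G))
    (R : Set X) (hdense : Dense R) (hconn : IsPreconnected R)
    (hR : ∀ x ∈ R, ∃ φ : OpenPartialHomeomorph X (E n), x ∈ φ.source ∧
      ∀ g ∈ V, g • x ∈ φ.source → GoodM φ V x g) : Pool.Agent.Y485.HS.IsLie G := by
  obtain ⟨hT, hN⟩ := nss_mainM V hV R hdense hconn hR
  haveI := hT
  obtain ⟨E, i1, i2, i3, ⟨C⟩⟩ := Pool.Agent.Y328.HS.lga G hN
  letI := i1
  letI := i2
  haveI := i3
  exact Pool.Agent.Y286.HS.lgb G E C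

end Pool.Agent.X169.HS
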