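import Mathlib

/-! The local theorem for groups of almost affine maps. -/

set_option autoImplicit false

open Set Filter Topology Metric Function MeasureTheory

noncomputable section

namespace Pool.Agent.X169.HS

/-- Euclidean space -/
abbrev E (n : ℕ) := EuclideanSpace ℝ (Fin n)

/-- the second differences of `f` are small compared with the first ones -/
def NA {n : ℕ} (f : E n → E n) (z : E n) (a : ℝ) : Prop :=
  ∀ p v : E n, ‖p - z‖ ≤ a → ‖v‖ ≤ a →
    ‖f (p + v) + f (p - v) - (2 : ℝ) • f p‖ ≤ 1 / 200 * ‖f (p + v) - f p‖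

/-- sequences with small second differences are nearly arithmetic progressions -/
theorem seq_ap {n : ℕ} (u : ℕ → E n) (k : ℕ) (hk : k ≤ 100)
    (h : ∀ j, j + 2 ≤ k → ‖u (j + 2) + u j - (2 : ℝ) • u (j + 1)‖ ≤
      1 / 200 * ‖u (j + 1) - u j‖) :
    ∀ j, j ≤ k → ‖u j - u 0 - (j : ℝ) • (u 1 - u 0)‖ ≤ 1 / 200 * (j : ℝ) ^ 2 * ‖u 1 - u 0‖ := by
  have h1 : ∀ j, j + 1 ≤ k →
      ‖(u (j + 1) - u j) - (u 1 - u 0)‖ ≤ 1 / 100 * (j : ℝ) * ‖u 1 - u 0‖ := by
    intro j
    induction j with
    | zero => intro _; simp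
    | succ j ih =>
      intro hj
      have e1 := ih (by omega)
      have e2 := h j (by omega)
      have hj1 : (j : ℝ) ≤ 100 := by
        have : j ≤ 100 := by omega
        exact_mod_cast this
      have e3 : ‖u (j + 1) - u j‖ ≤ 2 * ‖u 1 - u 0‖ := by
        have f1 := norm_le_norm_add_norm_sub' (u (j + 1) - u j) (u 1 - u 0)
        have f2 := norm_nonneg (u 1 - u 0)
        nlinarith
      have e4 : (u (j + 1 + 1) - u (j + 1)) - (u 1 - u 0) =
          (u (j + 2) + u j - (2 : ℝ) • u (j + 1)) + ((u (j + 1) - u j) - (u 1 - u 0)) := by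
        rw [two_smul]
        abel
      rw [e4]
      refine (norm_add_le _ _).trans ?_
      push_cast
      linarith
  intro j
  induction j with
  | zero => intro _; simp
  | succ j ih =>
    intro hj
    have e1 := ih (by omega)
    have e2 := h1 j hj
    have e4 : u (j + 1) - u 0 - ((j + 1 : ℕ) : ℝ) • (u 1 - u 0) =
        (u j - u 0 - (j : ℝ) • (u 1 - u 0)) + ((u (j + 1) - u j) - (u 1 - u 0)) := by
      push_cast
      rw [add_smul, one_smul]
      abel
    rw [e4]
    refine (norm_add_le _ _).trans ?_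
    push_cast
    have := norm_nonneg (u 1 - u 0)
    nlinarith

theorem ap {n : ℕ} (f : E n → E n) (z : E n) (a : ℝ) (ha : 0 < a) (hf : NA f z (3 * a))
    (p v : E n) (hv : ‖v‖ ≤ a) (hp : ∀ j : ℕ, j ≤ 14 → ‖p + (j : ℝ) • v - z‖ ≤ 2 * a) :
    ‖f (p + (14 : ℝ) • v) - f p - (14 : ℝ) • (f (p + v) - f p)‖ ≤ 98 / 100 * ‖f (p + v) - f p‖ := by
  have h := seq_ap (fun j : ℕ => f (p + (j : ℝ) • v)) 14 (by norm_num) (by
    intro j hj
    have h1 := hf (p + ((j + 1 : ℕ) : ℝ) • v) (-v) ((hp _ (by omega)).trans (by linarith)) (by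
      rw [norm_neg]
      linarith)
    have e1 : p + ((j + 1 : ℕ) : ℝ) • v + -v = p + (j : ℝ) • v := by
      push_cast
      rw [add_smul, one_smul]
      abel
    have e2 : p + ((j + 1 : ℕ) : ℝ) • v - -v = p + ((j + 2 : ℕ) : ℝ) • v := by
      push_cast
      rw [add_smul, one_smul, add_smul, two_smul]
      abel
    rw [e1, e2] at h1
    rw [add_comm (f (p + ((j + 2 : ℕ) : ℝ) • v)), norm_sub_rev (f (p + ((j + 1 : ℕ) : ℝ) • v))]
    exact h1) 14 le_rfl
  simp only [Nat.cast_zero, zero_smul, add_zero, Nat.cast_one, one_smul] at h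
  push_cast at h
  norm_num at h ⊢
  linarith

/-- a lower bound for the displacement -/
theorem lb {n : ℕ} (f : E n → E n) (z : E n) (a r c : ℝ) (ha : 0 < a) (hf : NA f z (3 * a))
    (hr : r ≤ a) (hc0 : 0 < c)
    (hc : ∀ p w : E n, ‖p - z‖ ≤ 2 * a → r / 2 ≤ ‖w‖ → ‖w‖ ≤ r → c ≤ ‖f (p + w) - f p‖) :
    ∀ (i : ℕ) (p v : E n), ‖p - z‖ ≤ 2 * a → ‖v‖ ≤ r →
      ‖f (p + v) - f p‖ ≤ c / 3 ^ i → ‖v‖ ≤ r / 2 ^ i := by
  intro i
  induction i with
  | zero =>
    intro p v _ hv _
    simpa using hv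
  | succ i ih =>
    intro p v hp hv h
    by_cases h2 : ‖v‖ ≤ r / 2
    · have h2v : ‖(2 : ℝ) • v‖ = 2 * ‖v‖ := by
        rw [norm_smul, Real.norm_of_nonneg (by norm_num)]
      have h3 : ‖f (p + (2 : ℝ) • v) - f p‖ ≤ 3 * ‖f (p + v) - f p‖ := by
        have e1 := hf (p + v) (-v) (by
          have := norm_add_le (p - z) v
          have e : p + v - z = p - z + v := by abel
          rw [e]
          linarith) (by rw [norm_neg]; linarith)
        have e2 : p + v + -v = p := by abel
        have e3 : p + v - -v = p + (2 : ℝ) • v := by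
          rw [two_smul]
          abel
        rw [e2, e3] at e1
        have e4 : f (p + (2 : ℝ) • v) - f p =
            (f p + f (p + (2 : ℝ) • v) - (2 : ℝ) • f (p + v)) + (2 : ℝ) • (f (p + v) - f p) := by
          rw [smul_sub, two_smul ℝ (f p)]
          abel
        rw [e4]
        refine (norm_add_le _ _).trans ?_
        have e5 : ‖(2 : ℝ) • (f (p + v) - f p)‖ = 2 * ‖f (p + v) - f p‖ := by
          rw [norm_smul, Real.norm_of_nonneg (by norm_num)]
        rw [e5]
        rw [norm_sub_rev (f p)] at e1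
        have := norm_nonneg (f (p + v) - f p)
        linarith
      have h4 := ih p ((2 : ℝ) • v) hp (by rw [h2v]; linarith) (by
        refine h3.trans ?_
        rw [pow_succ] at h
        have : c / (3 ^ i * 3) * 3 = c / 3 ^ i := by field_simp
        linarith)
      rw [h2v] at h4
      rw [pow_succ]
      have : r / (2 ^ i * 2) * 2 = r / 2 ^ i := by field_simp
      linarith
    · exfalso
      push Not at h2
      have h3 := hc p v hp h2.le hv
      have h4 : c / 3 ^ (i + 1) < c := by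
        apply div_lt_self hc0
        exact one_lt_pow₀ (by norm_num) (by omega)
      linarith

/-- **The local theorem.** -/
theorem loc {n : ℕ} {H : Type} [Group H] [TopologicalSpace H] [IsTopologicalGroup H]
    (T : H → E n → E n) (z : E n) (a : ℝ) (ha : 0 < a)
    (hT : ContinuousOn (fun q : H × E n => T q.1 q.2) (univ ×ˢ closedBall z (6 * a)))
    (_h1 : ∀ x ∈ closedBall z (6 * a), T 1 x = x)
    (hmul : ∀ h k, ∀ x ∈ closedBall z (6 * a), T k x ∈ closedBall z (6 * a) →
      T (h * k) x = T h (T k x))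
    (K : Subgroup H) (hK : IsCompact (K : Set H)) (h₀ : H)
    (hNA : ∀ k ∈ K, NA (T (h₀ * k)) z (3 * a)) (c : ℝ) (hc0 : 0 < c)
    (hc : ∀ p w : E n, ‖p - z‖ ≤ 2 * a → a / 56 ≤ ‖w‖ → ‖w‖ ≤ a / 28 →
      c ≤ ‖T h₀ (p + w) - T h₀ p‖)
    (hd : ∀ k ∈ K, ∀ p : E n, ‖p - z‖ ≤ 2 * a → ‖T k p - p‖ ≤ a / 28 ∧
      ‖T (h₀ * k) p - T h₀ p‖ ≤ c) :
    ∀ k ∈ K, ∀ p : E n, ‖p - z‖ ≤ a → T k p = p := by
  classical
  have : CompactSpace K := isCompact_iff_compactSpace.1 hK
  let _ : MeasurableSpace K := borel K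
  have : BorelSpace K := ⟨rfl⟩
  obtain ⟨μ, hμ1, hμ2⟩ : ∃ μ : Measure K, μ.IsMulLeftInvariant ∧ IsProbabilityMeasure μ := by
    refine ⟨Measure.haarMeasure ⊤, inferInstance, ⟨?_⟩⟩
    have := Measure.haarMeasure_self (G := K) (K₀ := ⊤)
    simpa using this
  have hmem : ∀ p : E n, ‖p - z‖ ≤ 6 * a → p ∈ closedBall z (6 * a) := fun p hp => by
    rwa [mem_closedBall, dist_eq_norm]
  -- continuity in the group variable
  have hcont : ∀ p : E n, ‖p - z‖ ≤ 6 * a → Continuous fun h : H => T h p := by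
    intro p hp
    have e1 : ContinuousOn (fun h : H => ((h, p) : H × E n)) univ := by fun_prop
    have e2 : ContinuousOn (fun h : H => T h p) univ :=
      hT.comp e1 fun h _ => ⟨mem_univ _, hmem p hp⟩
    exact continuousOn_univ.1 e2
  have hcontK : ∀ p : E n, ‖p - z‖ ≤ 6 * a → Continuous fun k : K => T (h₀ * (k : H)) p := by
    intro p hp
    exact (hcont p hp).comp (by fun_prop)
  have hcontK' : ∀ p : E n, ‖p - z‖ ≤ 6 * a → Continuous fun k : K => T (h₀ * (k : H)⁻¹) p := by
    intro p hp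
    exact (hcont p hp).comp (by fun_prop)
  have hint : ∀ p : E n, ‖p - z‖ ≤ 6 * a → Integrable (fun k : K => T (h₀ * (k : H)⁻¹) p) μ :=
    fun p hp => (hcontK' p hp).integrable_of_hasCompactSupport (HasCompactSupport.of_compactSpace _)
  -- invariance of the average
  have hinv : ∀ (g : K) (p : E n), ‖p - z‖ ≤ 2 * a →
      ∫ k : K, T (h₀ * (k : H)⁻¹) (T g p) ∂μ = ∫ k : K, T (h₀ * (k : H)⁻¹) p ∂μ := by
    intro g p hp
    have e0 : ‖T g p - z‖ ≤ 6 * a := by
      have e1 := (hd g g.2 p hp).1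
      have e2 : T g p - z = (T g p - p) + (p - z) := by abel
      rw [e2]
      refine (norm_add_le _ _).trans ?_
      linarith
    have e3 := integral_mul_left_eq_self (μ := μ) (fun k : K => T (h₀ * (k : H)⁻¹) p) g⁻¹
    rw [← e3]
    congr 1
    funext k
    rw [← hmul _ _ p (hmem p (by linarith)) (hmem _ e0)]
    congr 1
    simp [mul_assoc]
  have claim : ∀ (i : ℕ) (p : E n), ‖p - z‖ ≤ a + a / 2 ^ i → ∀ k ∈ K,
      ‖T (h₀ * k) p - T h₀ p‖ ≤ c / 3 ^ i := by
    intro i
    induction i with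
    | zero =>
      intro p hp k hk
      rw [pow_zero, div_one] at hp ⊢
      exact (hd k hk p (by linarith)).2
    | succ i ih =>
      intro p hp g hg
      have hpow : a / 2 ^ (i + 1) * 2 = a / 2 ^ i := by
        rw [pow_succ]
        field_simp
      have hpow1 : a / 2 ^ i ≤ a := div_le_self ha.le (one_le_pow₀ (by norm_num))
      have hpow0 : 0 < a / 2 ^ (i + 1) := by positivity
      have hp2 : ‖p - z‖ ≤ 2 * a := by linarith
      obtain ⟨v, hv⟩ : ∃ v, v = T g p - p := ⟨_, rfl⟩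
      have hgp : T g p = p + v := by rw [hv]; abel
      have hv1 : ‖v‖ ≤ a / 28 := by
        rw [hv]
        exact (hd g hg p hp2).1
      have hgp6 : ‖p + v - z‖ ≤ 6 * a := by
        have e2 : p + v - z = v + (p - z) := by abel
        rw [e2]
        refine (norm_add_le _ _).trans ?_
        linarith
      have hTg : T (h₀ * g) p = T h₀ (p + v) := by
        rw [hmul h₀ g p (hmem p (by linarith)) (hmem _ (by rw [hgp]; exact hgp6)), hgp]
      -- the displacement
      have hv2 : ‖v‖ ≤ a / 28 / 2 ^ i := by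
        refine lb (T h₀) z a (a / 28) c ha ?_ (by linarith) hc0 ?_ i p v hp2 hv1 ?_
        · have := hNA 1 K.one_mem
          rwa [mul_one] at this
        · intro p w hp hw hw'
          exact hc p w hp (by linarith) hw'
        · rw [← hTg]
          exact ih p (by linarith) g hg
      have hpj : ∀ j : ℕ, j ≤ 14 → ‖p + (j : ℝ) • v - z‖ ≤ a + a / 2 ^ i := by
        intro j hj
        have e1 : p + (j : ℝ) • v - z = (p - z) + (j : ℝ) • v := by abel
        have e2 : ‖(j : ℝ) • v‖ ≤ a / 2 ^ (i + 1) := by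
          rw [norm_smul, Real.norm_of_nonneg (by positivity)]
          have e3 : (j : ℝ) ≤ 14 := by exact_mod_cast hj
          calc (j : ℝ) * ‖v‖ ≤ 14 * (a / 28 / 2 ^ i) :=
                mul_le_mul e3 hv2 (norm_nonneg _) (by norm_num)
            _ = a / 2 ^ (i + 1) := by
                rw [pow_succ]
                field_simp
                norm_num
        rw [e1]
        refine (norm_add_le _ _).trans ?_
        linarith
      have hpj2 : ∀ j : ℕ, j ≤ 14 → ‖p + (j : ℝ) • v - z‖ ≤ 2 * a := fun j hj =>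
        (hpj j hj).trans (by linarith)
      have hp14 := hpj 14 le_rfl
      have hp14' := hpj2 14 le_rfl
      push_cast at hp14 hp14'
      -- the differences
      set Δ : K → E n := fun k => T (h₀ * (k : H)) (p + v) - T (h₀ * (k : H)) p with hΔ
      have hAP : ∀ k : K, ‖T (h₀ * (k : H)) (p + (14 : ℝ) • v) - T (h₀ * (k : H)) p -
          (14 : ℝ) • Δ k‖ ≤ 98 / 100 * ‖Δ k‖ := fun k =>
        ap _ z a ha (hNA k k.2) p v (by linarith) hpj2
      have hdiff : ∀ k k' : K, 14 * ‖Δ k - Δ k'‖ ≤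
          4 * (c / 3 ^ i) + 98 / 100 * (‖Δ k‖ + ‖Δ k'‖) := by
        intro k k'
        have a1 := hAP k
        have a2 := hAP k'
        have b1 := ih (p + (14 : ℝ) • v) hp14 k k.2
        have b2 := ih (p + (14 : ℝ) • v) hp14 k' k'.2
        have b3 := ih p (by linarith) k k.2
        have b4 := ih p (by linarith) k' k'.2
        have e1 : (14 : ℝ) • (Δ k - Δ k') =
            ((T (h₀ * (k : H)) (p + (14 : ℝ) • v) - T h₀ (p + (14 : ℝ) • v)) -
              (T (h₀ * (k' : H)) (p + (14 : ℝ) • v) - T h₀ (p + (14 : ℝ) • v))) -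
            ((T (h₀ * (k : H)) p - T h₀ p) - (T (h₀ * (k' : H)) p - T h₀ p)) -
            ((T (h₀ * (k : H)) (p + (14 : ℝ) • v) - T (h₀ * (k : H)) p - (14 : ℝ) • Δ k) -
              (T (h₀ * (k' : H)) (p + (14 : ℝ) • v) - T (h₀ * (k' : H)) p - (14 : ℝ) • Δ k')) := by
          rw [smul_sub]
          abel
        have e2 : ‖(14 : ℝ) • (Δ k - Δ k')‖ = 14 * ‖Δ k - Δ k'‖ := by
          rw [norm_smul, Real.norm_of_nonneg (by norm_num)]
        rw [← e2, e1]
        refine (norm_sub_le _ _).trans ?_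
        have f1 := norm_sub_le ((T (h₀ * (k : H)) (p + (14 : ℝ) • v) - T h₀ (p + (14 : ℝ) • v)) -
              (T (h₀ * (k' : H)) (p + (14 : ℝ) • v) - T h₀ (p + (14 : ℝ) • v)))
            ((T (h₀ * (k : H)) p - T h₀ p) - (T (h₀ * (k' : H)) p - T h₀ p))
        have f2 := norm_sub_le (T (h₀ * (k : H)) (p + (14 : ℝ) • v) - T h₀ (p + (14 : ℝ) • v))
              (T (h₀ * (k' : H)) (p + (14 : ℝ) • v) - T h₀ (p + (14 : ℝ) • v))
        have f3 := norm_sub_le (T (h₀ * (k : H)) p - T h₀ p) (T (h₀ * (k' : H)) p - T h₀ p)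
        have f4 := norm_sub_le
          (T (h₀ * (k : H)) (p + (14 : ℝ) • v) - T (h₀ * (k : H)) p - (14 : ℝ) • Δ k)
          (T (h₀ * (k' : H)) (p + (14 : ℝ) • v) - T (h₀ * (k' : H)) p - (14 : ℝ) • Δ k')
        linarith
      have hΔc : Continuous Δ := (hcontK _ hgp6).sub (hcontK p (by linarith))
      obtain ⟨m, -, hm⟩ := isCompact_univ.exists_isMaxOn (s := (univ : Set K)) ⟨1, mem_univ _⟩
        hΔc.norm.continuousOn
      have hm' : ∀ k : K, ‖Δ k‖ ≤ ‖Δ m‖ := fun k => hm (mem_univ k)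
      -- the mean of the differences is zero
      have hmean : ∫ k : K, Δ k⁻¹ ∂μ = 0 := by
        have e1 := hinv ⟨g, hg⟩ p hp2
        simp only [hgp] at e1
        have e2 : ∫ k : K, Δ k⁻¹ ∂μ = ∫ k : K, T (h₀ * (k : H)⁻¹) (p + v) ∂μ -
            ∫ k : K, T (h₀ * (k : H)⁻¹) p ∂μ := by
          rw [← integral_sub (hint _ hgp6) (hint p (by linarith))]
          rfl
        rw [e2, e1, sub_self]
      have hΔi : Integrable (fun k : K => Δ k⁻¹) μ := by
        refine (Continuous.integrable_of_hasCompactSupport ?_ (HasCompactSupport.of_compactSpace _))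
        exact hΔc.comp continuous_inv
      have hM : 14 * ‖Δ m‖ ≤ 4 * (c / 3 ^ i) + 98 / 100 * (‖Δ m‖ + ‖Δ m‖) := by
        have e1 : (14 : ℝ) • Δ m = ∫ k : K, (14 : ℝ) • (Δ m - Δ k⁻¹) ∂μ := by
          rw [integral_smul, integral_sub (integrable_const _) hΔi, hmean]
          simp
        have e2 : ‖(14 : ℝ) • Δ m‖ = 14 * ‖Δ m‖ := by
          rw [norm_smul, Real.norm_of_nonneg (by norm_num)]
        rw [← e2, e1]
        have e3 := norm_integral_le_of_norm_le_const (μ := μ)
          (f := fun k : K => (14 : ℝ) • (Δ m - Δ k⁻¹))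
          (C := 4 * (c / 3 ^ i) + 98 / 100 * (‖Δ m‖ + ‖Δ m‖)) (Eventually.of_forall fun k => by
            rw [norm_smul, Real.norm_of_nonneg (by norm_num)]
            have := hm' k⁻¹
            have := hdiff m k⁻¹
            linarith)
        simpa using e3
      have hcpos : 0 < c / 3 ^ i := by positivity
      have hM' : ‖Δ m‖ ≤ c / 3 ^ (i + 1) := by
        rw [pow_succ]
        have e1 : c / (3 ^ i * 3) = c / 3 ^ i / 3 := by field_simp
        rw [e1]
        linarith
      have hfin := hm' 1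
      have e1 : Δ 1 = T (h₀ * g) p - T h₀ p := by
        simp only [hΔ]
        rw [hTg]
        simp
      rw [e1] at hfin
      exact hfin.trans hM'
  intro k hk p hp
  have hp2 : ‖p - z‖ ≤ 2 * a := by linarith
  have hv1 := (hd k hk p hp2).1
  have hgp : T k p = p + (T k p - p) := by abel
  have hgp6 : ‖T k p - z‖ ≤ 6 * a := by
    have e2 : T k p - z = (T k p - p) + (p - z) := by abel
    rw [e2]
    refine (norm_add_le _ _).trans ?_
    linarith
  have hv2 : ∀ i : ℕ, ‖T k p - p‖ ≤ a / 28 / 2 ^ i := by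
    intro i
    refine lb (T h₀) z a (a / 28) c ha ?_ (by linarith) hc0 ?_ i p (T k p - p) hp2 hv1 ?_
    · have := hNA 1 K.one_mem
      rwa [mul_one] at this
    · intro p w hp hw hw'
      exact hc p w hp (by linarith) hw'
    · rw [← hgp, ← hmul h₀ k p (hmem p (by linarith)) (hmem _ hgp6)]
      refine claim i p ?_ k hk
      have : 0 < a / 2 ^ i := by positivity
      linarith
  have hlim : Tendsto (fun i : ℕ => a / 28 / 2 ^ i) atTop (𝓝 0) := by
    have h2 := tendsto_pow_atTop_nhds_zero_of_lt_one (r := (1 / 2 : ℝ)) (by norm_num) (by norm_num)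
    have h3 := h2.const_mul (a / 28)
    rw [mul_zero] at h3
    refine h3.congr fun i => ?_
    rw [one_div, inv_pow]
    rfl
  have h0 : ‖T k p - p‖ ≤ 0 := ge_of_tendsto' hlim hv2
  exact sub_eq_zero.1 (norm_le_zero_iff.1 h0)

end Pool.Agent.X169.HS
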