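import Pool.Agent.X169.HS.Glob

/-! Groups which do not turn displacement vectors by a right angle. -/

set_option autoImplicit false

open Set Filter Topology Metric Function MeasureTheory
open scoped RealInnerProductSpace

noncomputable section

namespace Pool.Agent.X169.HS

/-- `f` does not turn the displacement vectors of the maps `T g` by a right angle or more -/
def NT {n : ℕ} {H : Type} (T : H → E n → E n) (f : E n → E n) (z : E n) (a : ℝ) : Prop :=
  ∀ (g : H) (p : E n), ‖p - z‖ ≤ a → ‖T g p - z‖ ≤ a → T g p ≠ p →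
    0 < ⟪f (T g p) - f p, T g p - p⟫

/-- the same with a weak inequality -/
def NTw {n : ℕ} {H : Type} (T : H → E n → E n) (f : E n → E n) (z : E n) (a : ℝ) : Prop :=
  ∀ (g : H) (p : E n), ‖p - z‖ ≤ a → ‖T g p - z‖ ≤ a → 0 ≤ ⟪f (T g p) - f p, T g p - p⟫

theorem NT.weak {n : ℕ} {H : Type} {T : H → E n → E n} {f : E n → E n} {z : E n} {a : ℝ}
    (h : NT T f z a) : NTw T f z a := by
  intro g p hp hg
  by_cases hgp : T g p = p
  · rw [hgp, sub_self, sub_self, inner_zero_left]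
  · exact (h g p hp hg hgp).le

/-- **The local theorem.** -/
theorem locM {n : ℕ} {H : Type} [Group H] [TopologicalSpace H] [IsTopologicalGroup H]
    (T : H → E n → E n) (z : E n) (a : ℝ)
    (hT : ContinuousOn (fun q : H × E n => T q.1 q.2) (univ ×ˢ closedBall z a))
    (hmul : ∀ h k, ∀ x ∈ closedBall z a, T (h * k) x = T h (T k x))
    (K : Subgroup H) (hK : IsCompact (K : Set H)) (h₀ : H)
    (hw : ∀ k ∈ K, NTw T (T (h₀ * k)) z a) (hs : NT T (T h₀) z a)
    (b : ℝ) (hba : b ≤ a) (hd : ∀ k ∈ K, ∀ p : E n, ‖p - z‖ ≤ b → ‖T k p - z‖ ≤ a) :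
    ∀ k ∈ K, ∀ p : E n, ‖p - z‖ ≤ b → T k p = p := by
  classical
  have : CompactSpace K := isCompact_iff_compactSpace.1 hK
  let _ : MeasurableSpace K := borel K
  have : BorelSpace K := ⟨rfl⟩
  obtain ⟨μ, hμ1, hμ2, hμ3⟩ : ∃ μ : Measure K, μ.IsMulLeftInvariant ∧ IsProbabilityMeasure μ ∧
      μ.IsOpenPosMeasure := by
    refine ⟨Measure.haarMeasure ⊤, inferInstance, ⟨?_⟩, inferInstance⟩
    have := Measure.haarMeasure_self (G := K) (K₀ := ⊤)
    simpa using this
  intro g hg p hp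
  by_contra hgp
  have hmem : ∀ p : E n, ‖p - z‖ ≤ a → p ∈ closedBall z a := fun p hp => by
    rwa [mem_closedBall, dist_eq_norm]
  have hcont : ∀ p : E n, ‖p - z‖ ≤ a → Continuous fun h : H => T h p := by
    intro p hp
    have e1 : ContinuousOn (fun h : H => ((h, p) : H × E n)) univ := by fun_prop
    have e2 : ContinuousOn (fun h : H => T h p) univ :=
      hT.comp e1 fun h _ => ⟨mem_univ _, hmem p hp⟩
    exact continuousOn_univ.1 e2
  have hcontK' : ∀ p : E n, ‖p - z‖ ≤ a → Continuous fun k : K => T (h₀ * (k : H)⁻¹) p := by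
    intro p hp
    exact (hcont p hp).comp (by fun_prop)
  have hpa : ‖p - z‖ ≤ a := hp.trans hba
  have hga : ‖T g p - z‖ ≤ a := hd g hg p hp
  have hinv : ∫ k : K, T (h₀ * (k : H)⁻¹) (T g p) ∂μ = ∫ k : K, T (h₀ * (k : H)⁻¹) p ∂μ := by
    have e3 := integral_mul_left_eq_self (μ := μ) (fun k : K => T (h₀ * (k : H)⁻¹) p)
      (⟨g, hg⟩ : K)⁻¹
    rw [← e3]
    congr 1
    funext k
    rw [← hmul _ _ p (hmem p hpa)]
    congr 1
    simp [mul_assoc]
  have c1 := hcontK' _ hga
  have c2 := hcontK' _ hpa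
  have i1 : Integrable (fun k : K => T (h₀ * (k : H)⁻¹) (T g p)) μ :=
    c1.integrable_of_hasCompactSupport (HasCompactSupport.of_compactSpace _)
  have i2 : Integrable (fun k : K => T (h₀ * (k : H)⁻¹) p) μ :=
    c2.integrable_of_hasCompactSupport (HasCompactSupport.of_compactSpace _)
  have hz : ∫ k : K, (T (h₀ * (k : H)⁻¹) (T g p) - T (h₀ * (k : H)⁻¹) p) ∂μ = 0 := by
    rw [integral_sub i1 i2, hinv, sub_self]
  have hz2 : ∫ k : K, ⟪T g p - p, T (h₀ * (k : H)⁻¹) (T g p) - T (h₀ * (k : H)⁻¹) p⟫ ∂μ = 0 := by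
    have i3 : Integrable
        (fun k : K => T (h₀ * (k : H)⁻¹) (T g p) - T (h₀ * (k : H)⁻¹) p) μ := i1.sub i2
    have e := integral_inner (𝕜 := ℝ) i3 (T g p - p)
    rw [hz, inner_zero_right] at e
    exact e
  have cc : Continuous fun k : K =>
      ⟪T g p - p, T (h₀ * (k : H)⁻¹) (T g p) - T (h₀ * (k : H)⁻¹) p⟫ :=
    continuous_const.inner (c1.sub c2)
  have hpos : 0 < ∫ k : K, ⟪T g p - p, T (h₀ * (k : H)⁻¹) (T g p) - T (h₀ * (k : H)⁻¹) p⟫ ∂μ := by
    refine cc.integral_pos_of_hasCompactSupport_nonneg_nonzero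
      (HasCompactSupport.of_compactSpace _) (fun k => ?_) (x := 1) ?_
    · have h1 := hw _ (K.inv_mem k.2) g p hpa hga
      rw [real_inner_comm]
      exact h1
    · have h1 := hs g p hpa hga hgp
      rw [real_inner_comm]
      simp only [OneMemClass.coe_one, inv_one, mul_one]
      exact h1.ne'
  rw [hz2] at hpos
  exact lt_irrefl _ hpos

end Pool.Agent.X169.HS
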