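import Pool.Agent.X169.HS.Loc

/-! Newman's theorem for groups of almost affine maps. -/

set_option autoImplicit false

open Set Filter Topology Metric Function MeasureTheory

noncomputable section

namespace Pool.Agent.X169.HS

theorem new_step {n : ℕ} {K : Type} [Group K] [TopologicalSpace K] [IsTopologicalGroup K]
    [CompactSpace K] (T : K → E n → E n) (z : E n) (A : ℝ) (hA : 0 < A)
    (hT : ContinuousOn (fun q : K × E n => T q.1 q.2) (univ ×ˢ closedBall z A))
    (h1 : ∀ x ∈ closedBall z A, T 1 x = x)
    (hmul : ∀ h k, ∀ x ∈ closedBall z A, T k x ∈ closedBall z A → T (h * k) x = T h (T k x))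
    (hNA : ∀ k, NA (T k) z A)
    (hfix : ∀ δ : ℝ, 0 < δ → ∃ a ∈ ball z δ, ∀ᶠ x in 𝓝 a, ∀ k, T k x = x) :
    ∀ᶠ x in 𝓝 z, ∀ k, T k x = x := by
  by_contra hz
  set W : Set (E n) := {x | ∀ᶠ y in 𝓝 x, ∀ k, T k y = y} with hW
  have hWo : IsOpen W := by
    rw [isOpen_iff_mem_nhds]
    intro x hx
    exact eventually_eventually_nhds.2 hx
  have hzW : z ∈ Wᶜ := hz
  obtain ⟨a, haz, haW⟩ := hfix (A / 20) (by positivity)
  have haW' : a ∈ W := haW
  have hcl : IsClosed Wᶜ := hWo.isClosed_compl
  obtain ⟨b, hb, hbd⟩ := hcl.exists_infDist_eq_dist ⟨z, hzW⟩ a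
  set d := infDist a Wᶜ with hd
  have hd0 : 0 < d := by
    rw [hbd]
    apply dist_pos.2
    rintro rfl
    exact hb haW'
  have hdz : d ≤ dist a z := infDist_le_dist_of_mem hzW
  have haz' : dist a z < A / 20 := haz
  have hball : ∀ x, ‖x - a‖ < d → x ∈ W := by
    intro x hx
    by_contra hcon
    have h2 : d ≤ dist a x := infDist_le_dist_of_mem (show x ∈ Wᶜ from hcon)
    rw [dist_comm, dist_eq_norm] at h2
    linarith
  have hba : ‖b - a‖ = d := by rw [← dist_eq_norm, dist_comm, ← hbd]
  have hbz : ‖b - z‖ ≤ A / 10 := by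
    have e : b - z = (b - a) + (a - z) := by abel
    rw [e]
    refine (norm_add_le _ _).trans ?_
    rw [hba, ← dist_eq_norm]
    linarith
  -- the displacement near `b`
  have hdisp : ∀ k, ∀ x : E n, ‖x - b‖ ≤ d / 2 → ‖T k x - x‖ ≤ 3 / 800 * d := by
    intro k x hx
    set v : E n := (1 / 2 : ℝ) • (a - x) with hv
    have hc1 : x + v + v = a := by
      rw [hv, add_assoc, ← add_smul]
      norm_num
    have hxa : ‖a - x‖ ≤ 3 / 2 * d := by
      have e : a - x = (b - x) - (b - a) := by abel
      rw [e]
      refine (norm_sub_le _ _).trans ?_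
      rw [hba, norm_sub_rev]
      linarith
    have hvn : ‖v‖ ≤ 3 / 4 * d := by
      rw [hv, norm_smul, Real.norm_of_nonneg (by norm_num)]
      linarith
    have hcW : T k (x + v) = x + v := by
      refine (hball (x + v) ?_).self_of_nhds k
      have e : x + v - a = -v := by
        rw [← hc1]
        abel
      rw [e, norm_neg]
      linarith
    have haF : T k a = a := haW.self_of_nhds k
    have h2 := hNA k (x + v) v (by
      have e : x + v - z = (x - b) + (b - z) + v := by abel
      rw [e]
      refine (norm_add_le _ _).trans ?_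
      have := norm_add_le (x - b) (b - z)
      linarith) (by linarith)
    rw [add_sub_cancel_right, hc1, haF, hcW] at h2
    have e1 : a + T k x - (2 : ℝ) • (x + v) = T k x - x := by
      rw [← hc1, two_smul]
      abel
    have e2 : a - (x + v) = v := by
      rw [← hc1]
      abel
    rw [e1, e2] at h2
    linarith
  have hsub : closedBall b (6 * (d / 4)) ⊆ closedBall z A := by
    intro x hx
    rw [mem_closedBall, dist_eq_norm] at hx ⊢
    have e : x - z = (x - b) + (b - z) := by abel
    rw [e]
    refine (norm_add_le _ _).trans ?_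
    linarith
  have hsub' : ∀ x : E n, ‖x - b‖ ≤ 6 * (d / 4) → x ∈ closedBall z A := fun x hx =>
    hsub (by rwa [mem_closedBall, dist_eq_norm])
  have key := loc T b (d / 4) (by positivity) (hT.mono (prod_mono le_rfl hsub))
    (fun x hx => h1 x (hsub hx)) (fun h k x hx hx' => hmul h k x (hsub hx) (hsub hx')) ⊤
    (by simpa using isCompact_univ) 1 (fun k _ p v hp hv => by
      rw [one_mul]
      refine hNA k p v ?_ (by linarith)
      have e : p - z = (p - b) + (b - z) := by abel
      rw [e]
      refine (norm_add_le _ _).trans ?_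
      linarith) (d / 4 / 56) (by positivity) (fun p w hp hw hw' => by
      rw [h1 _ (hsub' p (by linarith)), h1 _ (hsub' (p + w) (by
        have e : p + w - b = (p - b) + w := by abel
        rw [e]
        refine (norm_add_le _ _).trans ?_
        linarith)), add_sub_cancel_left]
      exact hw) (fun k _ p hp => by
      have e1 := hdisp k p (by linarith)
      refine ⟨by linarith, ?_⟩
      rw [one_mul, h1 _ (hsub' p (by linarith))]
      linarith)
  apply hb
  have : ∀ᶠ y in 𝓝 b, ‖y - b‖ ≤ d / 4 := by
    have h3 := closedBall_mem_nhds b (show 0 < d / 4 by positivity)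
    filter_upwards [h3] with y hy
    rwa [mem_closedBall, dist_eq_norm] at hy
  exact this.mono fun y hy k => key k (Subgroup.mem_top _) y hy

end Pool.Agent.X169.HS
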